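import Mathlib

open CategoryTheory CategoryTheory.Limits

namespace Pool.Agent.Results.MP_8e2405_al.Counterexample

universe u v

section Definitions

variable {A : Type u} [Category.{v} A] [Abelian A]

/-- `X` is closed under extensions in `A`. -/
def ExtensionClosed (X : ObjectProperty A) : Prop :=
  ∀ S : ShortComplex A, S.ShortExact → X S.X₁ → X S.X₃ → X S.X₂

/-- `X` is closed under `k`-kernels: if `0 ⟶ Y 0 ⟶ Y 1 ⟶ ⋯ ⟶ Y (k + 1)` is exact and
`Y 1, …, Y (k + 1)` lie in `X`, then so does `Y 0`. -/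
def KernelClosed (k : ℕ) (X : ObjectProperty A) : Prop :=
  ∀ (Y : ℕ → A) (d : ∀ i, Y i ⟶ Y (i + 1)), Mono (d 0) →
    (∀ i < k, ∃ w : d i ≫ d (i + 1) = 0, (ShortComplex.mk (d i) (d (i + 1)) w).Exact) →
    (∀ i ≤ k, X (Y (i + 1))) → X (Y 0)

/-- `F` is a torsion-free class of the extension-closed subcategory `E` of `A`. -/
def IsTorsionFreeIn (F E : ObjectProperty A) : Prop :=
  F.IsClosedUnderIsomorphisms ∧ F ≤ E ∧
    ∀ S : ShortComplex A, S.ShortExact → E S.X₁ → E S.X₂ → E S.X₃ →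
      (F S.X₁ → F S.X₃ → F S.X₂) ∧ (F S.X₂ → F S.X₁)

/-- `X` is an `n`-fold torsion-free class of `A`. -/
def IsFoldTorsionFree (n : ℕ) (X : ObjectProperty A) : Prop :=
  ∃ F : ℕ → ObjectProperty A, F 0 = ⊤ ∧ F n = X ∧ ∀ i < n, IsTorsionFreeIn (F (i + 1)) (F i)

end Definitions

/-! ### The ring -/

/-- Generators of the ring. -/
inductive Gen
  | ε (p : ℕ)
  | δ (p : ℕ)
  | b
  | c

abbrev FA := FreeAlgebra ℤ Gen

/-- The defining relations. -/
inductive Rel : FA → FA → Prop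
  | εε (p : ℕ) : Rel (FreeAlgebra.ι ℤ (.ε p) * FreeAlgebra.ι ℤ (.ε p)) (FreeAlgebra.ι ℤ (.ε p))
  | δε (p : ℕ) : Rel (FreeAlgebra.ι ℤ (.δ p) * FreeAlgebra.ι ℤ (.ε p)) (FreeAlgebra.ι ℤ (.δ p))
  | εδ (p : ℕ) : Rel (FreeAlgebra.ι ℤ (.ε (p + 1)) * FreeAlgebra.ι ℤ (.δ p))
      (FreeAlgebra.ι ℤ (.δ p))
  | δδ (p : ℕ) : Rel (FreeAlgebra.ι ℤ (.δ (p + 1)) * FreeAlgebra.ι ℤ (.δ p)) 0
  | cb : Rel (FreeAlgebra.ι ℤ .c * FreeAlgebra.ι ℤ .b) (FreeAlgebra.ι ℤ (.δ 1))
  | bε : Rel (FreeAlgebra.ι ℤ .b * FreeAlgebra.ι ℤ (.ε 1)) (FreeAlgebra.ι ℤ .b)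
  | εc : Rel (FreeAlgebra.ι ℤ (.ε 2) * FreeAlgebra.ι ℤ .c) (FreeAlgebra.ι ℤ .c)
  | bδ : Rel (FreeAlgebra.ι ℤ .b * FreeAlgebra.ι ℤ (.δ 0)) 0
  | δc : Rel (FreeAlgebra.ι ℤ (.δ 2) * FreeAlgebra.ι ℤ .c) 0

/-- The ring generated by `Gen` subject to `Rel`. -/
abbrev R := RingQuot Rel

/-- The generators as elements of the ring. -/
def g (x : Gen) : R := RingQuot.mkRingHom Rel (FreeAlgebra.ι ℤ x)

theorem g_rel {x y z : Gen}
    (h : Rel (FreeAlgebra.ι ℤ x * FreeAlgebra.ι ℤ y) (FreeAlgebra.ι ℤ z)) : g x * g y = g z := by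
  unfold g
  rw [← map_mul]
  exact RingQuot.mkRingHom_rel h

theorem g_rel0 {x y : Gen}
    (h : Rel (FreeAlgebra.ι ℤ x * FreeAlgebra.ι ℤ y) 0) : g x * g y = 0 := by
  unfold g
  rw [← map_mul, RingQuot.mkRingHom_rel h, map_zero]

/-- The differential into position `p`. -/
def δ' (p : ℕ) : R := match p with
  | 0 => 0
  | p + 1 => g (.δ p)

theorem εε (p : ℕ) : g (.ε p) * g (.ε p) = g (.ε p) := g_rel (.εε p)
theorem δε (p : ℕ) : g (.δ p) * g (.ε p) = g (.δ p) := g_rel (.δε p)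
theorem εδ' (p : ℕ) : g (.ε p) * δ' p = δ' p := by
  cases p with
  | zero => simp [δ']
  | succ p => exact g_rel (.εδ p)
theorem δδ' (p : ℕ) : g (.δ p) * δ' p = 0 := by
  cases p with
  | zero => simp [δ']
  | succ p => exact g_rel0 (.δδ p)
theorem cb : g .c * g .b = g (.δ 1) := g_rel .cb
theorem bε : g .b * g (.ε 1) = g .b := g_rel .bε
theorem εc : g (.ε 2) * g .c = g .c := g_rel .εc
theorem bδ : g .b * g (.δ 0) = 0 := g_rel0 .bδ
theorem δc : g (.δ 2) * g .c = 0 := g_rel0 .δc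

/-! ### Exactness of modules in a position -/

section Modules

variable {M N P : Type} [AddCommGroup M] [AddCommGroup N] [AddCommGroup P]
  [Module R M] [Module R N] [Module R P]

/-- The submodule `D` is exact in position `p`. -/
def Ex (p : ℕ) (D : Submodule R M) : Prop :=
  ∀ x ∈ D, g (.δ p) • x = 0 → ∃ y ∈ D, g (.ε p) • x = δ' p • y

/-- The conditions defining the subcategory. -/
def Good (n : ℕ) (M : Type) [AddCommGroup M] [Module R M] : Prop :=
  (∀ x : M, g (.ε (n + 1)) • x = 0) ∧ ∀ p ≤ n, Ex p (⊤ : Submodule R M)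

theorem Ex.zero_of_le {D D' : Submodule R M} (h : Ex 0 D') (hD : D ≤ D') : Ex 0 D := by
  intro x hx h0
  obtain ⟨y, -, hy⟩ := h x (hD hx) h0
  refine ⟨0, D.zero_mem, ?_⟩
  rw [hy]
  simp [δ']

/-- Dimension shift. -/
theorem Ex.shift {p : ℕ} (d : M →ₗ[R] N) (h : Ex (p + 1) (⊤ : Submodule R M))
    (h' : Ex p (LinearMap.range d)) : Ex (p + 1) (LinearMap.ker d) := by
  intro x hx h0
  obtain ⟨y, -, hy⟩ := h x trivial h0
  have hy' : g (.ε (p + 1)) • x = g (.δ p) • y := hy
  have e1 : g (.δ p) • d y = 0 := by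
    rw [← map_smul, ← hy', map_smul, LinearMap.mem_ker.1 hx, smul_zero]
  obtain ⟨z, ⟨y', rfl⟩, hz⟩ := h' (d y) ⟨y, rfl⟩ e1
  refine ⟨g (.ε p) • y - δ' p • y', ?_, ?_⟩
  · rw [LinearMap.mem_ker, map_sub, map_smul, map_smul, hz, sub_self]
  · change _ = g (.δ p) • _
    rw [smul_sub, ← mul_smul, ← mul_smul, δε, δδ', zero_smul, sub_zero, hy']

/-- The key step. -/
theorem Ex.one_range (f : M →ₗ[R] N) (d : N →ₗ[R] P) (hfd : LinearMap.range f = LinearMap.ker d)
    (hM : Ex 2 (⊤ : Submodule R M)) (hN : Ex 1 (⊤ : Submodule R N))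
    (hP : Ex 1 (⊤ : Submodule R P)) : Ex 1 (LinearMap.range d) := by
  rintro x ⟨y, rfl⟩ h0
  obtain ⟨z, -, hz⟩ := hP (d y) trivial h0
  have hz' : g (.ε 1) • d y = g (.δ 0) • z := hz
  have e1 : d (g .b • y) = 0 := by
    rw [map_smul, ← bε, mul_smul, hz', ← mul_smul, bδ, zero_smul]
  have e2 : g .b • y ∈ LinearMap.range f := by rw [hfd]; exact e1
  obtain ⟨y', hy'⟩ := e2
  have e3 : g (.δ 2) • (g .c • y') = 0 := by rw [← mul_smul, δc, zero_smul]
  obtain ⟨t, -, ht⟩ := hM (g .c • y') trivial e3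
  have ht' : g .c • y' = g .c • (g .b • t) := by
    have : g (.ε 2) • (g .c • y') = g (.δ 1) • t := ht
    rw [← mul_smul, εc, ← cb, mul_smul] at this
    exact this
  have e4 : g (.δ 1) • (y - f t) = 0 := by
    rw [← cb, mul_smul, smul_sub, ← hy', ← map_smul, ← map_sub, ← map_smul, smul_sub, ht', sub_self,
      map_zero]
  obtain ⟨w, -, hw⟩ := hN (y - f t) trivial e4
  have hw' : g (.ε 1) • (y - f t) = g (.δ 0) • w := hw
  have e5 : d (f t) = 0 := by
    have : f t ∈ LinearMap.ker d := by rw [← hfd]; exact ⟨t, rfl⟩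
    exact this
  refine ⟨d w, ⟨w, rfl⟩, ?_⟩
  have e6 := congrArg d hw'
  rw [map_smul, map_sub, e5, sub_zero, map_smul] at e6
  exact e6

theorem Ex.range_iff_of_injective {p : ℕ} (f : M →ₗ[R] N) (hf : Function.Injective f)
    (h : Ex p (LinearMap.range f)) : Ex p (⊤ : Submodule R M) := by
  intro x _ h0
  obtain ⟨z, ⟨y, rfl⟩, hz⟩ := h (f x) ⟨x, rfl⟩ (by rw [← map_smul, h0, map_zero])
  refine ⟨y, trivial, hf ?_⟩
  rw [map_smul, map_smul, hz]

theorem Good.ext {n : ℕ} (f : M →ₗ[R] N) (d : N →ₗ[R] P) (hf : Function.Injective f)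
    (hd : Function.Surjective d) (hfd : ∀ y, d y = 0 → ∃ x, f x = y)
    (hM : Good n M) (hP : Good n P) : Good n N := by
  refine ⟨fun x => ?_, fun p hp x _ h0 => ?_⟩
  · obtain ⟨y, hy⟩ := hfd (g (.ε (n + 1)) • x) (by rw [map_smul, hP.1])
    rw [← εε, mul_smul, ← hy, ← map_smul, hM.1, map_zero]
  · obtain ⟨z, -, hz⟩ := hP.2 p hp (d x) trivial (by rw [← map_smul, h0, map_zero])
    obtain ⟨y, rfl⟩ := hd z
    obtain ⟨w, hw⟩ := hfd (g (.ε p) • x - δ' p • y) (by rw [map_sub, map_smul, map_smul, hz, sub_self])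
    have e1 : g (.δ p) • w = 0 := by
      apply hf
      rw [map_smul, hw, smul_sub, ← mul_smul, ← mul_smul, δε, δδ', h0, zero_smul, sub_zero,
        map_zero]
    obtain ⟨t, -, ht⟩ := hM.2 p hp w trivial e1
    refine ⟨y + f t, trivial, ?_⟩
    have e2 := congrArg f ht
    rw [map_smul, map_smul, hw, smul_sub, ← mul_smul, ← mul_smul, εε, εδ'] at e2
    rw [smul_add, ← e2]
    abel

end Modules

/-- The subcategory of `R`-modules. -/
def X (n : ℕ) : ObjectProperty (ModuleCat.{0} R) := fun M => Good n M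

theorem X_ext (n : ℕ) : ExtensionClosed (X n) := by
  intro S hS h1 h3
  have hf : Function.Injective S.f.hom := (ModuleCat.mono_iff_injective _).1 hS.mono_f
  have hd : Function.Surjective S.g.hom := (ModuleCat.epi_iff_surjective _).1 hS.epi_g
  exact Good.ext S.f.hom S.g.hom hf hd
    (fun y hy => (ShortComplex.moduleCat_exact_iff _).1 hS.exact y hy) h1 h3

theorem Good.of_injective {n : ℕ} {M N : Type} [AddCommGroup M] [AddCommGroup N]
    [Module R M] [Module R N] (f : M →ₗ[R] N) (hf : Function.Injective f) (hN : Good n N) (x : M) :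
    g (.ε (n + 1)) • x = 0 := by
  apply hf
  rw [map_smul, hN.1, map_zero]

theorem X_kernel (n : ℕ) (hn : 2 ≤ n) : KernelClosed n (X (n + 1)) := by
  intro Y d hd hex hX
  have hinj : Function.Injective (d 0).hom := (ModuleCat.mono_iff_injective _).1 hd
  have hrk : ∀ i < n, LinearMap.range (d i).hom = LinearMap.ker (d (i + 1)).hom := by
    intro i hi
    obtain ⟨w, hw⟩ := hex i hi
    exact (ShortComplex.moduleCat_exact_iff_range_eq_ker _).1 hw
  have key : ∀ j ≤ n, ∀ p ≤ j + 1, Ex p (LinearMap.range (d (n - j)).hom) := by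
    intro j
    induction j with
    | zero =>
      intro _ p hp
      obtain ⟨m, rfl⟩ : ∃ m, n = m + 2 := ⟨n - 2, by omega⟩
      interval_cases p
      · exact ((hX (m + 2) le_rfl).2 0 (by omega)).zero_of_le le_top
      · exact Ex.one_range (d (m + 1)).hom (d (m + 2)).hom (hrk (m + 1) (by omega))
          ((hX m (by omega)).2 2 (by omega)) ((hX (m + 1) (by omega)).2 1 (by omega))
          ((hX (m + 2) (by omega)).2 1 (by omega))
    | succ j ih =>
      intro hj p hp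
      obtain ⟨i, hi⟩ : ∃ i, n - (j + 1) = i := ⟨_, rfl⟩
      have hi' : n - j = i + 1 := by omega
      have ih' := ih (by omega)
      rw [hi'] at ih'
      rw [hi]
      cases p with
      | zero => exact ((hX i (by omega)).2 0 (by omega)).zero_of_le le_top
      | succ p =>
        rw [hrk i (by omega)]
        exact Ex.shift _ ((hX i (by omega)).2 (p + 1) (by omega)) (ih' p (by omega))
  refine ⟨fun x => Good.of_injective (d 0).hom hinj (hX 0 (by omega)) x, fun p hp => ?_⟩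
  refine Ex.range_iff_of_injective (d 0).hom hinj ?_
  have := key n le_rfl p hp
  rwa [Nat.sub_self] at this

/-! ### Some modules -/

/-- The assignment of operators to generators satisfies the relations. -/
def Adm {V : Type} [AddCommGroup V] (φ : Gen → Module.End ℤ V) : Prop :=
  ∀ x y, Rel x y → FreeAlgebra.lift ℤ φ x = FreeAlgebra.lift ℤ φ y

/-- The representation given by an assignment of operators to generators. -/
noncomputable def rep {V : Type} [AddCommGroup V] (φ : Gen → Module.End ℤ V) (h : Adm φ) :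
    R →+* Module.End ℤ V :=
  RingQuot.lift ⟨(FreeAlgebra.lift ℤ φ : FA →ₐ[ℤ] Module.End ℤ V).toRingHom, fun {x y} hxy => h x y hxy⟩

theorem rep_g {V : Type} [AddCommGroup V] (φ : Gen → Module.End ℤ V) (h : Adm φ) (x : Gen) :
    rep φ h (g x) = φ x := by
  unfold rep g
  rw [RingQuot.lift_mkRingHom_apply]
  simp

/-- The carrier of the module with the given representation. -/
def Car {V : Type} [AddCommGroup V] (φ : Gen → Module.End ℤ V) (_ : Adm φ) : Type := V

instance {V : Type} [AddCommGroup V] (φ : Gen → Module.End ℤ V) (h : Adm φ) :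
    AddCommGroup (Car φ h) := inferInstanceAs (AddCommGroup V)

noncomputable instance {V : Type} [AddCommGroup V] (φ : Gen → Module.End ℤ V) (h : Adm φ) :
    Module R (Car φ h) := Module.compHom V (rep φ h)

theorem smul_car {V : Type} [AddCommGroup V] (φ : Gen → Module.End ℤ V) (h : Adm φ) (r : R)
    (v : Car φ h) : r • v = (rep φ h r (v : V) : V) := rfl

theorem gen_smul {V : Type} [AddCommGroup V] (φ : Gen → Module.End ℤ V) (h : Adm φ) (x : Gen)
    (v : Car φ h) : g x • v = (φ x (v : V) : V) := by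
  rw [smul_car, rep_g]

theorem commutes {V W : Type} [AddCommGroup V] [AddCommGroup W] (φ : Gen → Module.End ℤ V)
    (hφ : Adm φ) (ψ : Gen → Module.End ℤ W) (hψ : Adm ψ) (f : V →+ W)
    (hf : ∀ x v, f (φ x v) = ψ x (f v)) (r : R) (v : V) :
    f (rep φ hφ r v) = rep ψ hψ r (f v) := by
  obtain ⟨a, rfl⟩ := RingQuot.mkRingHom_surjective Rel r
  have key : ∀ a : FA, ∀ v, f (FreeAlgebra.lift ℤ φ a v) = FreeAlgebra.lift ℤ ψ a (f v) := by
    intro a
    induction a using FreeAlgebra.induction with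
    | grade0 n => intro v; simp
    | grade1 x => intro v; simp [hf]
    | mul a b ha hb => intro v; simp [ha, hb]
    | add a b ha hb => intro v; simp [ha, hb]
  have e1 : rep φ hφ (RingQuot.mkRingHom Rel a) = FreeAlgebra.lift ℤ φ a := by
    unfold rep; rw [RingQuot.lift_mkRingHom_apply]; rfl
  have e2 : rep ψ hψ (RingQuot.mkRingHom Rel a) = FreeAlgebra.lift ℤ ψ a := by
    unfold rep; rw [RingQuot.lift_mkRingHom_apply]; rfl
  rw [e1, e2, key]

/-- The linear map given by an additive map commuting with the generators. -/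
noncomputable def homOf {V W : Type} [AddCommGroup V] [AddCommGroup W]
    {φ : Gen → Module.End ℤ V} (hφ : Adm φ) {ψ : Gen → Module.End ℤ W} (hψ : Adm ψ) (f : V →+ W)
    (hf : ∀ x v, f (φ x v) = ψ x (f v)) : Car φ hφ →ₗ[R] Car ψ hψ where
  toFun := f
  map_add' := f.map_add
  map_smul' r v := commutes φ hφ ψ hψ f hf r v

theorem exact_of {V₁ V₂ V₃ : Type} [AddCommGroup V₁] [AddCommGroup V₂] [AddCommGroup V₃]
    {φ₁ : Gen → Module.End ℤ V₁} (h₁ : Adm φ₁) {φ₂ : Gen → Module.End ℤ V₂} (h₂ : Adm φ₂)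
    {φ₃ : Gen → Module.End ℤ V₃} (h₃ : Adm φ₃) (f : V₁ →+ V₂) (d : V₂ →+ V₃)
    (hf : ∀ x v, f (φ₁ x v) = φ₂ x (f v)) (hd : ∀ x v, d (φ₂ x v) = φ₃ x (d v))
    (hfi : Function.Injective f) (hds : Function.Surjective d)
    (h0 : ∀ v, d (f v) = 0) (hex : ∀ v, d v = 0 → ∃ u, f u = v) :
    ∃ S : ShortComplex (ModuleCat.{0} R), S.ShortExact ∧ S.X₁ = ModuleCat.of R (Car φ₁ h₁) ∧
      S.X₂ = ModuleCat.of R (Car φ₂ h₂) ∧ S.X₃ = ModuleCat.of R (Car φ₃ h₃) := by
  have w : ModuleCat.ofHom (homOf h₁ h₂ f hf) ≫ ModuleCat.ofHom (homOf h₂ h₃ d hd) = 0 := by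
    ext v
    exact h0 v
  refine ⟨ShortComplex.mk _ _ w, ?_, rfl, rfl, rfl⟩
  have : Mono (ModuleCat.ofHom (homOf h₁ h₂ f hf)) := (ModuleCat.mono_iff_injective _).2 hfi
  have : Epi (ModuleCat.ofHom (homOf h₂ h₃ d hd)) := (ModuleCat.epi_iff_surjective _).2 hds
  exact ShortComplex.ShortExact.mk ((ShortComplex.moduleCat_exact_iff _).2 fun v hv => hex v hv)

/-! The operators. -/

/-- The simple module at position `p`. -/
def φS (p : ℕ) : Gen → Module.End ℤ ℤ
  | .ε q => if q = p then 1 else 0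
  | _ => 0

/-- The projection to the first coordinate. -/
def e1 : Module.End ℤ (ℤ × ℤ) := (LinearMap.inl ℤ ℤ ℤ).comp (LinearMap.fst ℤ ℤ ℤ)
/-- The projection to the second coordinate. -/
def e2 : Module.End ℤ (ℤ × ℤ) := (LinearMap.inr ℤ ℤ ℤ).comp (LinearMap.snd ℤ ℤ ℤ)
/-- The shift. -/
def sh : Module.End ℤ (ℤ × ℤ) := (LinearMap.inr ℤ ℤ ℤ).comp (LinearMap.fst ℤ ℤ ℤ)

theorem e1_apply (v : ℤ × ℤ) : e1 v = (v.1, 0) := rfl
theorem e2_apply (v : ℤ × ℤ) : e2 v = (0, v.2) := rfl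
theorem sh_apply (v : ℤ × ℤ) : sh v = (0, v.1) := rfl

/-- The module of length two in positions `p`, `p + 1`. -/
def φI (p : ℕ) : Gen → Module.End ℤ (ℤ × ℤ)
  | .ε q => if q = p then e1 else if q = p + 1 then e2 else 0
  | .δ q => if q = p then sh else 0
  | _ => 0

/-- The trivial module. -/
def φW : Gen → Module.End ℤ ℤ := fun _ => 0

/-- The module of length two with socle the trivial module. -/
def φC : Gen → Module.End ℤ (ℤ × ℤ)
  | .ε q => if q = 1 then e1 else 0
  | .b => sh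
  | _ => 0

/-- The operators on the module of length three. -/
def op (a b c : (ℤ × ℤ × ℤ) →ₗ[ℤ] ℤ) : Module.End ℤ (ℤ × ℤ × ℤ) := a.prod (b.prod c)

def p1 : (ℤ × ℤ × ℤ) →ₗ[ℤ] ℤ := LinearMap.fst ℤ ℤ (ℤ × ℤ)
def p2 : (ℤ × ℤ × ℤ) →ₗ[ℤ] ℤ := (LinearMap.fst ℤ ℤ ℤ).comp (LinearMap.snd ℤ ℤ (ℤ × ℤ))
def p3 : (ℤ × ℤ × ℤ) →ₗ[ℤ] ℤ := (LinearMap.snd ℤ ℤ ℤ).comp (LinearMap.snd ℤ ℤ (ℤ × ℤ))

theorem op_apply (a b c : (ℤ × ℤ × ℤ) →ₗ[ℤ] ℤ) (v : ℤ × ℤ × ℤ) : op a b c v = (a v, b v, c v) :=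
  rfl
theorem p1_apply (v : ℤ × ℤ × ℤ) : p1 v = v.1 := rfl
theorem p2_apply (v : ℤ × ℤ × ℤ) : p2 v = v.2.1 := rfl
theorem p3_apply (v : ℤ × ℤ × ℤ) : p3 v = v.2.2 := rfl

/-- The module of length three. -/
def φT : Gen → Module.End ℤ (ℤ × ℤ × ℤ)
  | .ε q => if q = 1 then op p1 0 0 else if q = 2 then op 0 0 p3 else 0
  | .δ q => if q = 1 then op 0 0 p1 else 0
  | .b => op 0 p1 0
  | .c => op 0 0 p2

theorem admS (p : ℕ) : Adm (φS p) := by
  intro x y h
  cases h <;> simp [φS]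

theorem admW : Adm φW := by
  intro x y h
  cases h <;> simp [φW]

theorem admI (p : ℕ) (hp : p ≠ 1) : Adm (φI p) := by
  intro x y h
  cases h <;> simp only [map_mul, FreeAlgebra.lift_ι_apply, φI, map_zero] <;>
    (try split_ifs) <;> first | omega | (apply LinearMap.ext; intro v; simp [e1_apply, e2_apply, sh_apply])

theorem admC : Adm φC := by
  intro x y h
  cases h <;> simp only [map_mul, FreeAlgebra.lift_ι_apply, φC, map_zero] <;>
    (try split_ifs) <;> first | omega | (apply LinearMap.ext; intro v; simp [e1_apply, sh_apply])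

theorem admT : Adm φT := by
  intro x y h
  cases h <;> simp only [map_mul, FreeAlgebra.lift_ι_apply, φT, map_zero] <;>
    (try split_ifs) <;> first | omega | (apply LinearMap.ext; intro v; simp [op_apply, p1_apply, p2_apply, p3_apply])

/-- The operator into position `p`. -/
def dd {V : Type} [AddCommGroup V] (φ : Gen → Module.End ℤ V) (p : ℕ) : Module.End ℤ V :=
  match p with
  | 0 => 0
  | p + 1 => φ (.δ p)

theorem rep_δ' {V : Type} [AddCommGroup V] (φ : Gen → Module.End ℤ V) (h : Adm φ) (p : ℕ) :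
    rep φ h (δ' p) = dd φ p := by
  cases p with
  | zero => exact map_zero _
  | succ p => exact rep_g φ h _

theorem good_iff {V : Type} [AddCommGroup V] (n : ℕ) (φ : Gen → Module.End ℤ V) (h : Adm φ) :
    Good n (Car φ h) ↔ (∀ v, φ (.ε (n + 1)) v = 0) ∧
      ∀ p ≤ n, ∀ v, φ (.δ p) v = 0 → ∃ w, φ (.ε p) v = dd φ p w := by
  constructor
  · rintro ⟨h1, h2⟩
    refine ⟨fun v => (gen_smul φ h _ v).symm.trans (h1 v), fun p hp v hv => ?_⟩
    obtain ⟨w, -, hw⟩ := h2 p hp v trivial ((gen_smul φ h _ v).trans hv)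
    refine ⟨w, (gen_smul φ h _ v).symm.trans (hw.trans ?_)⟩
    rw [smul_car, rep_δ']
  · rintro ⟨h1, h2⟩
    refine ⟨fun v => (gen_smul φ h _ v).trans (h1 v), fun p hp v _ hv => ?_⟩
    obtain ⟨w, hw⟩ := h2 p hp v ((gen_smul φ h _ v).symm.trans hv)
    refine ⟨w, trivial, (gen_smul φ h _ v).trans (hw.trans ?_)⟩
    rw [← rep_δ' φ h p]
    exact (smul_car φ h (δ' p) w).symm

theorem goodI (n p : ℕ) (hp : p ≠ 1) (hpn : p + 1 ≤ n) : Good n (Car (φI p) (admI p hp)) := by
  rw [good_iff]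
  refine ⟨fun x => ?_, fun q hq x h0 => ?_⟩
  · simp only [φI]
    rw [if_neg (by omega), if_neg (by omega)]
    rfl
  · by_cases h1 : q = p
    · refine ⟨0, ?_⟩
      simp only [φI, if_pos h1] at h0 ⊢
      have h2 : x.1 = 0 := congrArg Prod.snd h0
      rw [map_zero, e1_apply, h2]
      rfl
    · by_cases h2 : q = p + 1
      · subst h2
        refine ⟨(x.2, 0), ?_⟩
        simp [dd, φI, e2_apply, sh_apply]
      · refine ⟨0, ?_⟩
        simp [φI, if_neg h1, if_neg h2]

theorem goodW (n : ℕ) : Good n (Car φW admW) := by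
  rw [good_iff]
  exact ⟨fun x => rfl, fun q hq x _ => ⟨0, by simp [φW]⟩⟩

theorem goodT (n : ℕ) (hn : 2 ≤ n) : Good n (Car φT admT) := by
  rw [good_iff]
  refine ⟨fun x => ?_, fun q hq x h0 => ?_⟩
  · simp only [φT]
    rw [if_neg (by omega), if_neg (by omega)]
    rfl
  · by_cases h1 : q = 1
    · refine ⟨0, ?_⟩
      simp only [φT, if_pos h1] at h0 ⊢
      have h2 : x.1 = 0 := congrArg (fun v : ℤ × ℤ × ℤ => v.2.2) h0
      rw [map_zero, op_apply, p1_apply, h2]
      rfl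
    · by_cases h2 : q = 2
      · subst h2
        refine ⟨(x.2.2, 0, 0), ?_⟩
        simp [dd, φT, op_apply, p1_apply, p3_apply]
      · refine ⟨0, ?_⟩
        simp [φT, if_neg h1, if_neg h2]

theorem not_goodS (n : ℕ) (hn : 1 ≤ n) : ¬ Good n (Car (φS n) (admS n)) := by
  rw [good_iff]
  intro h
  obtain ⟨m, rfl⟩ : ∃ m, n = m + 1 := ⟨n - 1, by omega⟩
  obtain ⟨y, hy⟩ := h.2 (m + 1) le_rfl 1 rfl
  simp [φS, dd] at hy

/-! ### Short exact sequences -/

/-- `0 → S (p + 1) → I p → S p → 0`. -/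
theorem sesI (p : ℕ) (hp : p ≠ 1) :
    ∃ S : ShortComplex (ModuleCat.{0} R), S.ShortExact ∧
      S.X₁ = ModuleCat.of R (Car (φS (p + 1)) (admS (p + 1))) ∧
      S.X₂ = ModuleCat.of R (Car (φI p) (admI p hp)) ∧
      S.X₃ = ModuleCat.of R (Car (φS p) (admS p)) := by
  refine exact_of (admS (p + 1)) (admI p hp) (admS p) (AddMonoidHom.inr ℤ ℤ)
    (AddMonoidHom.fst ℤ ℤ) ?_ ?_ ?_ ?_ ?_ ?_
  · intro x v
    cases x with
    | ε q =>
      by_cases h1 : q = p
      · simp [φS, φI, h1, e1_apply]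
      · by_cases h2 : q = p + 1 <;> simp [φS, φI, h1, h2, e2_apply]
    | δ q => by_cases h1 : q = p <;> simp [φS, φI, h1, sh_apply]
    | b => simp [φS, φI]
    | c => simp [φS, φI]
  · intro x v
    cases x with
    | ε q =>
      by_cases h1 : q = p
      · simp [φS, φI, h1, e1_apply]
      · by_cases h2 : q = p + 1 <;> simp [φS, φI, h1, h2, e2_apply]
    | δ q => by_cases h1 : q = p <;> simp [φS, φI, h1, sh_apply]
    | b => simp [φS, φI]
    | c => simp [φS, φI]
  · intro a b h; exact congrArg Prod.snd h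
  · intro a; exact ⟨(a, 0), rfl⟩
  · intro v; rfl
  · rintro ⟨a, b⟩ h
    have : a = 0 := h
    subst this
    exact ⟨b, rfl⟩

/-- `0 → W → C → S 1 → 0`. -/
theorem sesC :
    ∃ S : ShortComplex (ModuleCat.{0} R), S.ShortExact ∧
      S.X₁ = ModuleCat.of R (Car φW admW) ∧
      S.X₂ = ModuleCat.of R (Car φC admC) ∧
      S.X₃ = ModuleCat.of R (Car (φS 1) (admS 1)) := by
  refine exact_of admW admC (admS 1) (AddMonoidHom.inr ℤ ℤ)
    (AddMonoidHom.fst ℤ ℤ) ?_ ?_ ?_ ?_ ?_ ?_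
  · intro x v
    cases x with
    | ε q => by_cases h1 : q = 1 <;> simp [φW, φC, h1, e1_apply]
    | δ q => simp [φW, φC]
    | b => simp [φW, φC, sh_apply]
    | c => simp [φW, φC]
  · intro x v
    cases x with
    | ε q => by_cases h1 : q = 1 <;> simp [φS, φC, h1, e1_apply]
    | δ q => simp [φS, φC]
    | b => simp [φS, φC, sh_apply]
    | c => simp [φS, φC]
  · intro a b h; exact congrArg Prod.snd h
  · intro a; exact ⟨(a, 0), rfl⟩
  · intro v; rfl
  · rintro ⟨a, b⟩ h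
    have : a = 0 := h
    subst this
    exact ⟨b, rfl⟩

/-- `0 → S 2 → T → C → 0`. -/
theorem sesT :
    ∃ S : ShortComplex (ModuleCat.{0} R), S.ShortExact ∧
      S.X₁ = ModuleCat.of R (Car (φS 2) (admS 2)) ∧
      S.X₂ = ModuleCat.of R (Car φT admT) ∧
      S.X₃ = ModuleCat.of R (Car φC admC) := by
  refine exact_of (admS 2) admT admC
    ((AddMonoidHom.inr ℤ (ℤ × ℤ)).comp (AddMonoidHom.inr ℤ ℤ))
    ((AddMonoidHom.fst ℤ (ℤ × ℤ)).prod ((AddMonoidHom.fst ℤ ℤ).comp (AddMonoidHom.snd ℤ (ℤ × ℤ))))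
    ?_ ?_ ?_ ?_ ?_ ?_
  · intro x v
    cases x with
    | ε q =>
      by_cases h1 : q = 1
      · simp [φS, φT, h1, op_apply, p1_apply]
      · by_cases h2 : q = 2 <;> simp [φS, φT, h1, h2, op_apply, p3_apply]
    | δ q => by_cases h1 : q = 1 <;> simp [φS, φT, h1, op_apply, p1_apply]
    | b => simp [φS, φT, op_apply, p1_apply]
    | c => simp [φS, φT, op_apply, p2_apply]
  · intro x v
    cases x with
    | ε q =>
      by_cases h1 : q = 1
      · simp [φC, φT, h1, op_apply, p1_apply, e1_apply]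
      · by_cases h2 : q = 2 <;> simp [φC, φT, h1, h2, op_apply]
    | δ q => by_cases h1 : q = 1 <;> simp [φC, φT, h1, op_apply]
    | b => simp [φC, φT, op_apply, p1_apply, sh_apply]
    | c => simp [φC, φT, op_apply]
  · intro a b h; exact congrArg (fun v : ℤ × ℤ × ℤ => v.2.2) h
  · intro a; exact ⟨(a.1, a.2, 0), rfl⟩
  · intro v; rfl
  · rintro ⟨a, b, c⟩ h
    have h1 : a = 0 := congrArg Prod.fst h
    have h2 : b = 0 := congrArg Prod.snd h
    subst h1 h2
    exact ⟨c, rfl⟩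

theorem not_fold (n : ℕ) (hn : 3 ≤ n) : ¬ IsFoldTorsionFree n (X n) := by
  rintro ⟨F, hF0, hFn, hF⟩
  -- membership is inherited upwards
  have up : ∀ i j, i ≤ j → j ≤ n → F j ≤ F i := by
    intro i j hij
    induction hij with
    | refl => intro _; exact le_rfl
    | @step m _ ih => intro hm; exact ((hF m (by omega)).2.1).trans (ih (by omega))
  have top : ∀ M, F 0 M := fun M => by rw [hF0]; trivial
  have XF : ∀ i ≤ n, ∀ M, X n M → F i M := fun i hi M hM => up i n hi le_rfl M (by rw [hFn]; exact hM)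
  -- subobjects of objects of `X n` lie in `F 1`
  have sub1 : ∀ S : ShortComplex (ModuleCat.{0} R), S.ShortExact → X n S.X₂ → F 1 S.X₁ :=
    fun S hS hX => ((hF 0 (by omega)).2.2 S hS (top _) (top _) (top _)).2 (XF 1 (by omega) _ hX)
  -- the module `C`
  have hC : F 1 (ModuleCat.of R (Car φC admC)) := by
    obtain ⟨S, hS, h1, h2, h3⟩ := sesC
    obtain ⟨S', hS', h1', h2', -⟩ := sesI 0 (by omega)
    have := ((hF 0 (by omega)).2.2 S hS (top _) (top _) (top _)).1
      (by rw [h1]; exact XF 1 (by omega) _ (goodW n))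
      (by
        rw [h3, ← h1']
        exact sub1 S' hS' (by rw [h2']; exact goodI n 0 (by omega) (by omega)))
    rwa [h2] at this
  -- the syzygies
  have key : ∀ j, 2 ≤ j → j ≤ n → ∀ i ≤ j, F i (ModuleCat.of R (Car (φS j) (admS j))) := by
    intro j hj
    induction j, hj using Nat.le_induction with
    | base =>
      intro _ i hi
      obtain ⟨S, hS, h1, h2, h3⟩ := sesT
      have hXT : X n S.X₂ := by rw [h2]; exact goodT n (by omega)
      have hs1 : F 1 S.X₁ := sub1 S hS hXT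
      interval_cases i
      · exact top _
      · rw [← h1]; exact hs1
      · rw [← h1]
        exact ((hF 1 (by omega)).2.2 S hS hs1 (XF 1 (by omega) _ hXT) (by rw [h3]; exact hC)).2
          (XF 2 (by omega) _ hXT)
    | succ j hj ih =>
      intro hjn i
      obtain ⟨S, hS, h1, h2, h3⟩ := sesI j (by omega)
      have hXI : X n S.X₂ := by rw [h2]; exact goodI n j (by omega) hjn
      rw [← h1]
      induction i with
      | zero => intro _; exact top _
      | succ i ihi =>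
        intro hi
        exact ((hF i (by omega)).2.2 S hS (ihi (by omega)) (XF i (by omega) _ hXI)
          (by rw [h3]; exact ih (by omega) i (by omega))).2 (XF (i + 1) (by omega) _ hXI)
  have := key n (by omega) le_rfl n le_rfl
  rw [hFn] at this
  exact not_goodS n (by omega) this

theorem X_iso (n : ℕ) : (X n).IsClosedUnderIsomorphisms := by
  constructor
  intro M N e hM
  let f : N →ₗ[R] M := e.inv.hom
  have hf : Function.Injective f := by
    have : Mono e.inv := inferInstance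
    exact (ModuleCat.mono_iff_injective _).1 this
  have hs : Function.Surjective f := by
    have : Epi e.inv := inferInstance
    exact (ModuleCat.epi_iff_surjective _).1 this
  have hM' : Good n M := hM
  refine ⟨fun x => Good.of_injective f hf hM' x, fun p hp => Ex.range_iff_of_injective f hf ?_⟩
  rw [LinearMap.range_eq_top.2 hs]
  exact hM'.2 p hp

/-- For every `n ≥ 3` there are an abelian category and a subcategory closed under isomorphisms,
extensions and `(n - 1)`-kernels that is not an `n`-fold torsion-free class. -/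
theorem result : ∀ n : ℕ, 3 ≤ n →
    ∃ (A : Type 1) (_ : Category.{0} A) (_ : Abelian A) (X : ObjectProperty A),
      X.IsClosedUnderIsomorphisms ∧ ExtensionClosed X ∧ KernelClosed (n - 1) X ∧
        ¬ IsFoldTorsionFree n X := by
  intro n hn
  refine ⟨ModuleCat.{0} R, inferInstance, inferInstance, X n, X_iso n, X_ext n, ?_, not_fold n hn⟩
  have := X_kernel (n - 1) (by omega)
  rwa [Nat.sub_add_cancel (by omega)] at this

end Pool.Agent.Results.MP_8e2405_al.Counterexample
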